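import Mathlib
import Pool.Agent.H81.SimTiling.Defs
import Pool.Agent.H81.SimTiling.Final

/-!
# MP_2cc943_co, Q1: there is no prototile as in the question

No prototile `P` that admits a tiling has the property that every tiling admitted by `P` is a
`k`-similarity tiling (for some `k ≥ 2` that may depend on the tiling) with a unique
`k`-composition.

Idea of the proof.  The space of tilings admitted by `P` is a compact Hausdorff space on which
translations act.  On a minimal closed invariant set, Baire's theorem applied to the closed sets
`F k n` of tilings having a self-similarity of index `k` and size at most `n` gives a `k` such
that, for one `n`, all tilings of the minimal set are in `F k n`; for the least such `k`, Baire's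
theorem gives a tiling `T` in the minimal set whose least index is `k`.  Since all translates of
`T` lie in `F k n`, the tiling `T` has, near every point `v` of the plane, a self-similarity that
moves `v` by at most `n`.  By uniqueness of the composition all of them map `T` onto the same
tiling, so they differ by symmetries of `T`.  Uniqueness also excludes translational symmetries,
so the symmetry group of `T` has bounded orbits, and this is a contradiction for `v` far away.
-/

set_option autoImplicit false

namespace Pool.Agent.Results.MP_2cc943_co.NoSuchPrototile

open Pool.Agent.H81.SimTiling

/-- There is no prototile `P` that admits at least one tiling of the plane and such that every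
tiling admitted by `P` is a `k`-similarity tiling, for some `k ≥ 2`, whose `k`-composition is
unique. -/
theorem result :
    ¬ ∃ P : Set Plane, (∃ T : Set (Set Plane), Admits P T) ∧
      ∀ T : Set (Set Plane), Admits P T →
        ∃ k : ℕ, 2 ≤ k ∧ IsSimilarityTiling k T ∧ UniqueKComposition k T := by
  rintro ⟨P, hne, H⟩
  exact main_false hne H

end Pool.Agent.Results.MP_2cc943_co.NoSuchPrototile
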